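import Mathlib

/-!
# HI, block HC3: vanishing minors give a linear relation
-/

set_option autoImplicit false

namespace Pool.Agent.Helper26.HI

/-- over the rationals: vanishing minors give a nonzero functional that kills all rows -/
private theorem rel_rat34 {J Y : Type} [Fintype J] [DecidableEq J] (v : Y → J → ℚ)
    (h : ∀ y : J → Y, (Matrix.of fun i j => v (y i) j).det = 0) :
    ∃ q : J → ℚ, q ≠ 0 ∧ ∀ y, ∑ j, q j * v y j = 0 := by
  classical
  by_cases htop : Submodule.span ℚ (Set.range v) = ⊤
  · exfalso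
    obtain ⟨b, hb1, hb2, hb3⟩ := exists_linearIndependent ℚ (Set.range v)
    rw [htop] at hb2
    let B : Module.Basis b ℚ (J → ℚ) := Module.Basis.mk hb3 (by
      rw [Subtype.range_coe]; exact hb2.ge)
    have hfin : Finite b := hb3.finite
    let _ : Fintype b := Fintype.ofFinite _
    have hcard : Fintype.card b = Fintype.card J := by
      have h1 := Module.finrank_eq_card_basis B
      rw [Module.finrank_fintype_fun_eq_card] at h1
      exact h1.symm
    let e : J ≃ b := (Fintype.equivOfCardEq hcard).symm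
    have hy : ∀ i : J, ∃ y : Y, v y = (e i : J → ℚ) := fun i => hb1 (e i).2
    choose y hy using hy
    have hM : (Matrix.of fun i j => v (y i) j : Matrix J J ℚ).row = fun i => ((e i : b) : J → ℚ) := by
      funext i
      exact hy i
    have hli : LinearIndependent ℚ (Matrix.of fun i j => v (y i) j : Matrix J J ℚ).row := by
      rw [hM]
      exact hb3.comp e e.injective
    have hu := Matrix.linearIndependent_rows_iff_isUnit.1 hli
    rw [Matrix.isUnit_iff_isUnit_det, h y] at hu
    exact not_isUnit_zero hu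
  · obtain ⟨f, hf, hk⟩ := Submodule.exists_le_ker_of_lt_top _ (lt_top_iff_ne_top.2 htop)
    refine ⟨fun j => f (Pi.single j 1), ?_, ?_⟩
    · intro h0
      apply hf
      apply LinearMap.pi_ext'
      intro j
      ext
      simpa using congrFun h0 j
    · intro y
      have h1 : f (v y) = 0 := hk (Submodule.subset_span ⟨y, rfl⟩)
      rw [LinearMap.pi_apply_eq_sum_univ f (v y)] at h1
      rw [← h1]
      refine Finset.sum_congr rfl fun j _ => ?_
      rw [smul_eq_mul, mul_comm]
      congr 1
      show f (Pi.single j 1) = _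
      congr 1
      funext i
      simp [Pi.single_apply, eq_comm]

/-- **HC3**: vanishing minors give a linear relation -/
theorem exists_rel {J Y : Type} [Fintype J] [DecidableEq J] (v : Y → J → ℤ)
    (h : ∀ y : J → Y, (Matrix.of fun i j => v (y i) j).det = 0) :
    ∃ q : J → ℤ, q ≠ 0 ∧ ∀ y, ∑ j, q j * v y j = 0 := by
  classical
  obtain ⟨q, hq, hs⟩ := rel_rat34 (fun y j => (v y j : ℚ)) (fun y => by
    have h1 := congrArg (Int.cast : ℤ → ℚ) (h y)
    rw [Int.cast_zero, Int.cast_det] at h1
    rw [← h1]
    rfl)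
  obtain ⟨c, hc⟩ := IsLocalization.exist_integer_multiples (nonZeroDivisors ℤ) Finset.univ q
  have hc2 : ∀ j, ∃ m : ℤ, (m : ℚ) = (c : ℤ) * q j := by
    intro j
    obtain ⟨m, hm⟩ := hc j (Finset.mem_univ j)
    refine ⟨m, ?_⟩
    simpa [Algebra.smul_def] using hm
  choose m hm using hc2
  have hc0 : ((c : ℤ) : ℚ) ≠ 0 := by
    exact_mod_cast nonZeroDivisors.ne_zero c.2
  refine ⟨m, ?_, ?_⟩
  · intro h0
    apply hq
    funext j
    have h1 := hm j
    rw [h0] at h1
    have h2 : ((c : ℤ) : ℚ) * q j = 0 := by rw [← h1]; simp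
    exact (mul_eq_zero.1 h2).resolve_left hc0
  · intro y
    have h1 : ((∑ j, m j * v y j : ℤ) : ℚ) = 0 := by
      push_cast
      calc ∑ j, (m j : ℚ) * (v y j : ℚ) = ∑ j, (c : ℤ) * (q j * (v y j : ℚ)) :=
            Finset.sum_congr rfl fun j _ => by rw [hm j]; ring
        _ = (c : ℤ) * ∑ j, q j * (v y j : ℚ) := by rw [Finset.mul_sum]
        _ = 0 := by rw [hs y, mul_zero]
    exact_mod_cast h1

end Pool.Agent.Helper26.HI
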