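import Mathlib

/-!
# HI, block HC1: a determinant of values of polynomials at points divisible by `p`
-/

set_option autoImplicit false

namespace Pool.Agent.Helper26.HI

open MvPolynomial

/-- the value of a polynomial at `p u`, as a sum over a common finite set of exponents -/
private theorem eval_sum34 {r : ℕ} (p : ℤ) (G : MvPolynomial (Fin r) ℤ) (S : Finset (Fin r →₀ ℕ)) (hS : G.support ⊆ S)
    (u : Fin r → ℤ) :
    eval (fun k => p * u k) G = ∑ κ ∈ S, (coeff κ G * p ^ (∑ k, κ k)) * ∏ k, u k ^ κ k := by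
  rw [eval_eq']
  rw [Finset.sum_subset hS (fun κ _ h => by rw [notMem_support_iff.1 h, zero_mul])]
  refine Finset.sum_congr rfl fun κ _ => ?_
  rw [mul_assoc, ← Finset.prod_pow_eq_pow_sum, ← Finset.prod_mul_distrib]
  congr 1
  exact Finset.prod_congr rfl fun k _ => mul_pow _ _ _

/-- **HC1**: a determinant of values of polynomials at points divisible by `p` -/
theorem det_dvd {r : ℕ} {J : Type} [Fintype J] [DecidableEq J] (p : ℤ) (w : ℕ)
    (hw : ∀ κ : J → (Fin r →₀ ℕ), Function.Injective κ → w ≤ ∑ j, ∑ k, κ j k)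
    (G : J → MvPolynomial (Fin r) ℤ) (u : J → Fin r → ℤ) :
    p ^ w ∣ (Matrix.of fun i j => eval (fun k => p * u i k) (G j)).det := by
  classical
  let S : Finset (Fin r →₀ ℕ) := Finset.univ.biUnion fun j => (G j).support
  have hS : ∀ j, (G j).support ⊆ S := fun j => Finset.subset_biUnion_of_mem (fun j => (G j).support) (Finset.mem_univ j)
  let A : J → (Fin r →₀ ℕ) → ℤ := fun j κ => coeff κ (G j) * p ^ (∑ k, κ k)
  let m : (Fin r →₀ ℕ) → J → ℤ := fun κ i => ∏ k, u i k ^ κ k
  have hM : (Matrix.of fun i j => eval (fun k => p * u i k) (G j)).det =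
      (Matrix.detRowAlternating : (J → ℤ) [⋀^J]→ₗ[ℤ] ℤ).toMultilinearMap (fun j => ∑ κ ∈ S, A j κ • m κ) := by
    rw [← Matrix.det_transpose]
    show Matrix.det _ = Matrix.det _
    congr 1
    ext j i
    simp only [Matrix.transpose_apply, Matrix.of_apply]
    rw [eval_sum34 p (G j) S (hS j) (u i)]
    rw [Finset.sum_apply]
    rfl
  rw [hM, MultilinearMap.map_sum_finset]
  refine Finset.dvd_sum fun κ _ => ?_
  rw [MultilinearMap.map_smul_univ]
  by_cases hκ : Function.Injective κ
  · have h1 : (∏ j, A j (κ j)) = (∏ j, coeff (κ j) (G j)) * p ^ (∑ j, ∑ k, κ j k) := by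
      show (∏ j, (coeff (κ j) (G j) * p ^ (∑ k, κ j k))) = _
      rw [Finset.prod_mul_distrib, Finset.prod_pow_eq_pow_sum]
    rw [h1, smul_eq_mul]
    exact dvd_mul_of_dvd_left (dvd_mul_of_dvd_right (pow_dvd_pow p (hw κ hκ)) _) _
  · have h2 : (Matrix.detRowAlternating : (J → ℤ) [⋀^J]→ₗ[ℤ] ℤ).toMultilinearMap (fun j => m (κ j)) = 0 := by
      apply AlternatingMap.map_eq_zero_of_not_injective
      intro h
      apply hκ
      intro i j hij
      apply h
      show m (κ i) = m (κ j)
      rw [hij]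
    rw [h2, smul_zero]
    exact dvd_zero _

end Pool.Agent.Helper26.HI
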